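import Mathlib
import Pool.Agent.W200.IG.HF
import Pool.Agent.H880R2.Hilb.E1

/-!
# Rational function fields over finite fields are Hilbertian
-/

set_option autoImplicit false

namespace Pool.Agent.Y140.IG

open Polynomial
open Pool.Agent.W200.IG
open Pool.Agent.H391R2.T4 (HilbField)
open Pool.Agent.H880R2.Hilb (dvd_prod_linear)

/-- choose a constant separating the values of the products over different subsets -/
theorem exists_sep {K N : Type*} [Field K] [Infinite K] [Field N] [Algebra K N] [DecidableEq N]
    (R : Finset N) :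
    ∃ c : K, ∀ S ⊆ R, ∀ S' ⊆ R, ∏ α ∈ S, (algebraMap K N c - α) =
      ∏ α ∈ S', (algebraMap K N c - α) → S = S' := by
  classical
  obtain ⟨P, hPd⟩ : ∃ P : Finset N → N[X], ∀ S, P S = ∏ α ∈ S, (X - C α) := ⟨_, fun _ => rfl⟩
  have hP : ∀ S S' : Finset N, P S = P S' → S = S' := by
    intro S S' h
    have h1 : (P S).roots = S.val := by
      rw [hPd]
      exact roots_prod_X_sub_C S
    have h2 : (P S').roots = S'.val := by
      rw [hPd]
      exact roots_prod_X_sub_C S'
    apply Finset.val_injective
    rw [← h1, ← h2, h]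
  obtain ⟨D, hD⟩ : ∃ D : Finset (Finset N × Finset N),
      D = (R.powerset ×ˢ R.powerset).filter (fun p => p.1 ≠ p.2) := ⟨_, rfl⟩
  have hQ : (∏ p ∈ D, (P p.1 - P p.2)) ≠ 0 := by
    rw [Finset.prod_ne_zero_iff]
    intro p hp
    rw [hD, Finset.mem_filter] at hp
    rw [sub_ne_zero]
    intro h
    exact hp.2 (hP _ _ h)
  obtain ⟨c, hc⟩ : ∃ c : K, (∏ p ∈ D, (P p.1 - P p.2)).eval (algebraMap K N c) ≠ 0 := by
    by_contra hcon
    push Not at hcon
    apply hQ
    apply Polynomial.eq_zero_of_infinite_isRoot
    apply Set.Infinite.mono (s := Set.range (fun c : K => algebraMap K N c))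
    · rintro _ ⟨c, rfl⟩
      exact hcon c
    · exact Set.infinite_range_of_injective (algebraMap K N).injective
  rw [eval_prod, Finset.prod_ne_zero_iff] at hc
  refine ⟨c, fun S hS S' hS' h => ?_⟩
  by_contra hne
  have hmem : (S, S') ∈ D := by
    rw [hD, Finset.mem_filter, Finset.mem_product]
    exact ⟨⟨Finset.mem_powerset.2 hS, Finset.mem_powerset.2 hS'⟩, hne⟩
  apply hc (S, S') hmem
  rw [eval_sub, hPd, hPd, eval_prod, eval_prod]
  simp only [eval_sub, eval_X, eval_C]
  rw [h, sub_self]


/-- Hilbertian fields from the root form of Hilbert's irreducibility theorem. -/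
theorem hilb_of_sp (K : Type) [Field K] [Infinite K] (hK : SP K K[X]) : HilbField K := by
  classical
  intro f hf hirr hsep g hg
  let Kf := FractionRing K[X]
  let fK : Kf[X] := f.map (algebraMap K[X] Kf)
  have hirrK : Irreducible fK := (hf.irreducible_iff_irreducible_map_fraction_map).1 hirr
  have hfK : fK.Monic := hf.map _
  let N := fK.SplittingField
  have hsep : fK.Separable := hsep
  have hgal : IsGalois Kf N := IsGalois.of_separable_splitting_field (p := fK) hsep
  let aKN : Algebra K N := ((algebraMap K[X] N).comp (C : K →+* K[X])).toAlgebra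
  have hKN : ∀ c : K, algebraMap K N c = algebraMap K[X] N (C c) := fun _ => rfl
  have hAN : Function.Injective (algebraMap K[X] N) := by
    rw [IsScalarTower.algebraMap_eq K[X] Kf N]
    exact (algebraMap Kf N).injective.comp (IsFractionRing.injective K[X] Kf)
  have hfN : f.map (algebraMap K[X] N) = fK.map (algebraMap Kf N) := by
    rw [Polynomial.map_map, ← IsScalarTower.algebraMap_eq]
  set R : Finset N := (fK.map (algebraMap Kf N)).roots.toFinset with hR
  have hnodup : (fK.map (algebraMap Kf N)).roots.Nodup := nodup_roots hsep.map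
  have hsplit : (fK.map (algebraMap Kf N)).Splits := SplittingField.splits fK
  have hprod : f.map (algebraMap K[X] N) = ∏ α ∈ R, (X - C α) := by
    rw [hfN, hsplit.eq_prod_roots_of_monic (hfK.map _)]
    rw [Finset.prod_eq_multiset_prod, hR, Multiset.toFinset_val, Multiset.dedup_eq_self.2 hnodup]
  have hRroot : ∀ α ∈ R, aeval α fK = 0 := by
    intro α hα
    rw [hR, Multiset.mem_toFinset, mem_roots (hfK.map _).ne_zero, IsRoot.def, eval_map_algebraMap] at hα
    exact hα
  have hint : ∀ α ∈ R, IsIntegral K[X] α := by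
    intro α hα
    refine ⟨f, hf, ?_⟩
    rw [← eval_map, hfN, eval_map_algebraMap]
    exact hRroot α hα
  have hRσ : ∀ (σ : N ≃ₐ[Kf] N), ∀ α ∈ R, σ α ∈ R := by
    intro σ α hα
    rw [hR, Multiset.mem_toFinset, mem_roots (hfK.map _).ne_zero, IsRoot.def, eval_map_algebraMap]
    have h1 : aeval (σ α) fK = σ (aeval α fK) := aeval_algHom_apply σ α fK
    rw [h1, hRroot α hα, map_zero]
  have htrans : ∀ α ∈ R, ∀ β ∈ R, ∃ σ : N ≃ₐ[Kf] N, σ α = β := by
    intro α hα β hβ
    have h1 : minpoly Kf α = fK :=
      (minpoly.eq_of_irreducible_of_monic hirrK (hRroot α hα) hfK).symm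
    have h2 : minpoly Kf β = fK :=
      (minpoly.eq_of_irreducible_of_monic hirrK (hRroot β hβ) hfK).symm
    have h3 : IsConjRoot Kf β α := by
      unfold IsConjRoot
      rw [h1, h2]
    exact (isConjRoot_iff_exists_algEquiv.1 h3)
  obtain ⟨c, hc⟩ := exists_sep (K := K) R
  set θ : Finset N → N := fun S => ∏ α ∈ S, (algebraMap K N c - α) with hθ
  have hθint : ∀ S ⊆ R, IsIntegral K[X] (θ S) := by
    intro S hS
    apply IsIntegral.prod
    intro α hα
    apply IsIntegral.sub
    · rw [hKN]
      exact isIntegral_algebraMap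
    · exact hint α (hS hα)
  set T : Finset (Finset N) := R.powerset.filter (fun S => S ≠ ∅ ∧ S ≠ R) with hT
  have hTsub : ∀ S ∈ T, S ⊆ R := by
    intro S hS
    rw [hT, Finset.mem_filter, Finset.mem_powerset] at hS
    exact hS.1
  have hθnot : ∀ S ∈ T, θ S ∉ (algebraMap Kf N).range := by
    rintro S hS ⟨x, hx⟩
    have hS' := hS
    rw [hT, Finset.mem_filter, Finset.mem_powerset] at hS'
    obtain ⟨hSR, hSne, hSneR⟩ := hS'
    apply hSneR
    apply Finset.Subset.antisymm hSR
    intro β hβ
    obtain ⟨α, hα⟩ := Finset.nonempty_iff_ne_empty.2 hSne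
    obtain ⟨σ, hσ⟩ := htrans α (hSR hα) β hβ
    have h1 : σ (θ S) = θ S := by rw [← hx, AlgEquiv.commutes]
    have hσc : σ (algebraMap K N c) = algebraMap K N c := by
      rw [hKN, IsScalarTower.algebraMap_apply K[X] Kf N, AlgEquiv.commutes]
    have h2 : σ (θ S) = θ (S.image σ) := by
      simp only [hθ]
      rw [map_prod, Finset.prod_image (fun a _ b _ h => σ.injective h)]
      apply Finset.prod_congr rfl
      intro a _
      rw [map_sub, hσc]
    have h3 : S.image σ ⊆ R := by
      intro b hb
      obtain ⟨a, ha, rfl⟩ := Finset.mem_image.1 hb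
      exact hRσ σ a (hSR ha)
    have h4 : S.image σ = S := hc _ h3 _ hSR (by
      show θ (S.image σ) = θ S
      rw [← h2, h1])
    rw [← h4, ← hσ]
    exact Finset.mem_image_of_mem σ hα
  have hmin : ∀ S ∈ T, minpoly Kf (θ S) = (minpoly K[X] (θ S)).map (algebraMap K[X] Kf) :=
    fun S hS => minpoly.isIntegrallyClosed_eq_field_fractions Kf N (hθint S (hTsub S hS))
  obtain ⟨φ₀, hφg, hφr⟩ := hK T (fun S => minpoly K[X] (θ S.1))
    (fun S => minpoly.monic (hθint S.1 (hTsub S.1 S.2)))
    (fun S => rsep_of_sep (algebraMap K[X] Kf) (IsFractionRing.injective _ _) (by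
      rw [← hmin S.1 S.2]
      exact Algebra.IsSeparable.isSeparable Kf (θ S.1)))
    (fun S x h0 => by
      apply hθnot S.1 S.2
      have hi' : IsIntegral Kf (θ S.1) := (hθint S.1 (hTsub S.1 S.2)).tower_top
      have h2 : IsRoot (minpoly Kf (θ S.1)) (algebraMap K[X] Kf x) := by
        rw [IsRoot.def, hmin S.1 S.2, eval_map_apply, h0, map_zero]
      have h3 := degree_eq_one_of_irreducible_of_root (minpoly.irreducible hi') h2
      exact minpoly.mem_range_of_degree_eq_one Kf (θ S.1) h3) g hg
  -- the specialisation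
  set t : K := φ₀ X with ht0
  set φ : K[X] →+* K := evalRingHom t with hφ
  have hφ₀ : ∀ p, φ₀ p = φ p := by
    intro p
    have h1 : φ₀ = aeval t := by
      apply Polynomial.algHom_ext
      rw [aeval_X]
    rw [h1, hφ, coe_evalRingHom]
    rfl
  have hφ₀' : (φ₀ : K[X] →+* K) = φ := RingHom.ext hφ₀
  refine ⟨t, by rw [← coe_evalRingHom, ← hφ, ← hφ₀]; exact hφg, ?_⟩
  have hφs : Function.Surjective φ := fun q => ⟨C q, by rw [hφ, coe_evalRingHom, eval_C]⟩
  let CC := integralClosure K[X] N
  have hCinj : Function.Injective (algebraMap K[X] CC) := by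
    intro a b hab
    apply hAN
    exact congrArg Subtype.val hab
  have hmax : (RingHom.ker φ).IsMaximal := RingHom.ker_isMaximal_of_surjective φ hφs
  have hCint : Algebra.IsIntegral K[X] CC := inferInstance
  obtain ⟨Q, hQmax, hQ⟩ := Ideal.exists_ideal_over_maximal_of_isIntegral (S := CC) (RingHom.ker φ)
    (by rw [(RingHom.injective_iff_ker_eq_bot _).1 hCinj]; exact bot_le)
  let _ : Field (CC ⧸ Q) := Ideal.Quotient.field Q
  set ψ : CC →+* CC ⧸ Q := Ideal.Quotient.mk Q with hψ
  set j : K →+* CC ⧸ Q := ψ.comp ((algebraMap K[X] CC).comp (C : K →+* K[X])) with hj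
  have hcomm : ψ.comp (algebraMap K[X] CC) = j.comp φ := by
    apply RingHom.ext
    intro x
    have h1 : x - C (φ x) ∈ RingHom.ker φ := by
      rw [RingHom.mem_ker, map_sub, hφ, coe_evalRingHom, eval_C, sub_self]
    rw [← hQ, Ideal.mem_comap] at h1
    have h2 := Ideal.Quotient.eq_zero_iff_mem.2 h1
    rw [map_sub, map_sub, sub_eq_zero] at h2
    exact h2
  -- lifts of the roots to the integral closure
  have hex : ∀ α : N, ∃ x : CC, α ∈ R → (x : N) = α := by
    intro α
    by_cases h : α ∈ R
    · exact ⟨⟨α, hint α h⟩, fun _ => rfl⟩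
    · exact ⟨0, fun h' => absurd h' h⟩
  choose γ hγ using hex
  have hprodC : f.map (algebraMap K[X] CC) = ∏ α ∈ R, (X - C (γ α)) := by
    apply Polynomial.map_injective (algebraMap CC N) Subtype.val_injective
    rw [Polynomial.map_map, Polynomial.map_prod]
    have h1 : (algebraMap CC N).comp (algebraMap K[X] CC) = algebraMap K[X] N := rfl
    rw [h1, hprod]
    apply Finset.prod_congr rfl
    intro α hα
    rw [Polynomial.map_sub, map_X, map_C]
    congr 2
    exact (hγ α hα).symm
  have hprodQ : (f.map φ).map j = ∏ α ∈ R, (X - C (ψ (γ α))) := by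
    rw [Polynomial.map_map, ← hcomm, ← Polynomial.map_map, hprodC, Polynomial.map_prod]
    apply Finset.prod_congr rfl
    intro α _
    rw [Polynomial.map_sub, map_X, map_C]
  have hcardR : R.card = f.natDegree := by
    have h1 := congrArg natDegree hprod
    rw [hf.natDegree_map, natDegree_prod_of_monic _ _ (fun α _ => monic_X_sub_C α)] at h1
    simp only [natDegree_X_sub_C, Finset.sum_const, smul_eq_mul, mul_one] at h1
    exact h1.symm
  have hfφ : (f.map φ).Monic := hf.map φ
  have hdeg : (f.map φ).natDegree = f.natDegree := hf.natDegree_map φ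
  rw [hfφ.irreducible_iff_natDegree']
  constructor
  · intro h1
    apply hirr.not_isUnit
    have h2 : f.natDegree = 0 := by rw [← hdeg, h1, natDegree_one]
    rw [hf.natDegree_eq_zero.1 h2]
    exact isUnit_one
  · intro u v hu hv huv hmem
    rw [Finset.mem_Ioc, hdeg] at hmem
    obtain ⟨hv0, hv1⟩ := hmem
    have hvd : v.map j ∣ ∏ α ∈ R, (X - C (ψ (γ α))) := by
      rw [← hprodQ, ← huv, Polynomial.map_mul]
      exact dvd_mul_left _ _
    obtain ⟨S, hSR, hS⟩ := dvd_prod_linear (fun α => ψ (γ α)) R _ (hv.map j) hvd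
    have hcardS : S.card = v.natDegree := by
      have h1 := congrArg natDegree hS
      rw [hv.natDegree_map, natDegree_prod_of_monic _ _ (fun α _ => monic_X_sub_C _)] at h1
      simp only [natDegree_X_sub_C, Finset.sum_const, smul_eq_mul, mul_one] at h1
      exact h1.symm
    have hST : S ∈ T := by
      rw [hT, Finset.mem_filter, Finset.mem_powerset]
      refine ⟨hSR, ?_, ?_⟩
      · rintro rfl
        rw [Finset.card_empty] at hcardS
        omega
      · rintro rfl
        omega
    -- the root
    set θC : CC := ∏ α ∈ S, (algebraMap K[X] CC (C c) - γ α) with hθC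
    have hθCN : (θC : N) = θ S := by
      have h1 : (algebraMap CC N) θC = θ S := by
        rw [hθC, map_prod]
        simp only [hθ]
        apply Finset.prod_congr rfl
        intro α hα
        rw [map_sub, hKN]
        congr 1
        exact hγ α (hSR hα)
      exact h1
    have hFθ : ((minpoly K[X] (θ S)).map (algebraMap K[X] CC)).eval θC = 0 := by
      apply Subtype.val_injective
      have h1 : (algebraMap CC N) (((minpoly K[X] (θ S)).map (algebraMap K[X] CC)).eval θC)
          = 0 := by
        rw [← eval_map_apply, Polynomial.map_map]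
        have h2 : (algebraMap CC N).comp (algebraMap K[X] CC) = algebraMap K[X] N := rfl
        have h3 : (algebraMap CC N) θC = θ S := hθCN
        rw [h2, h3, eval_map_algebraMap]
        exact minpoly.aeval _ _
      exact h1
    have hq : j (v.eval c) = ψ θC := by
      rw [← eval_map_apply, hS, eval_prod, hθC, map_prod]
      apply Finset.prod_congr rfl
      intro α _
      rw [eval_sub, eval_X, eval_C, map_sub]
      rfl
    apply hφr ⟨S, hST⟩ (v.eval c)
    change ((minpoly K[X] (θ S)).map (φ₀ : K[X] →+* K)).eval (v.eval c) = 0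
    rw [hφ₀']
    apply j.injective
    rw [map_zero, ← eval_map_apply, Polynomial.map_map, ← hcomm, hq, ← Polynomial.map_map,
      eval_map_apply, hFθ, map_zero]

/-- Rational function fields over finite fields are Hilbertian. -/
theorem hilb_ratFunc (κ : Type) [Field κ] [Finite κ] : HilbField (RatFunc κ) := by
  have : Infinite (RatFunc κ) := Infinite.of_injective (algebraMap κ[X] (RatFunc κ))
    (IsFractionRing.injective _ _)
  have hp : HP (RatFunc κ) (RatFunc κ) := hp_base (κ := κ) (RatFunc κ)
  exact hilb_of_sp _ (sp_poly hp (sp_base (RatFunc κ)))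

end Pool.Agent.Y140.IG
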