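import Mathlib
import Pool.Agent.TH15.IGP.Fin

/-!
# From `G^n` over `κ(X)` to `G` regular over `κ`, for a finite field `κ`
-/

set_option autoImplicit false

namespace Pool.Agent.Y140.IG

open Polynomial IntermediateField

/-- Algebraic elements of `κ(X)` are constants. -/
theorem const_rat {κ : Type} [Field κ] (w : RatFunc κ) (h : IsAlgebraic κ w) :
    ∃ c : κ, algebraMap κ (RatFunc κ) c = w := by
  have hi2 : IsIntegral κ[X] w := h.isIntegral.tower_top
  obtain ⟨p, rfl⟩ := IsIntegrallyClosed.isIntegral_iff.1 hi2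
  obtain ⟨f, hf0, hf⟩ := h
  rw [aeval_algebraMap_apply] at hf
  have h2 : aeval p f = 0 := (FaithfulSMul.algebraMap_injective κ[X] (RatFunc κ)) (by
    rw [hf, map_zero])
  have h3 : f.comp p = 0 := h2
  rcases comp_eq_zero_iff.1 h3 with h0 | ⟨_, hp⟩
  · exact absurd h0 hf0
  · refine ⟨p.coeff 0, ?_⟩
    conv_rhs => rw [hp]
    rfl

/-- The elements of a finite subfield are the solutions of `z^q = z`. -/
theorem mem_of_pow {E F : Type} [Field E] [Finite E] [Field F] [Algebra E F] (z : F)
    (hz : z ^ Nat.card E = z) : ∃ e : E, algebraMap E F e = z := by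
  classical
  have := Fintype.ofFinite E
  have hc : Nat.card E = Fintype.card E := Nat.card_eq_fintype_card
  have h1 : (X ^ Fintype.card E - X : E[X]) = ∏ e : E, (X - C e) := by
    have hm : (X ^ Fintype.card E - X : E[X]).Monic := by
      apply monic_X_pow_sub
      rw [degree_X]
      exact_mod_cast Fintype.one_lt_card
    have h2 : (X ^ Fintype.card E - X : E[X]).roots.card =
        (X ^ Fintype.card E - X : E[X]).natDegree := by
      rw [FiniteField.roots_X_pow_card_sub_X, FiniteField.X_pow_card_sub_X_natDegree_eq E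
        Fintype.one_lt_card]
      rfl
    have h3 := prod_multiset_X_sub_C_of_monic_of_roots_card_eq hm h2
    rw [FiniteField.roots_X_pow_card_sub_X] at h3
    rw [← h3]
    rfl
  have h4 : (aeval z) (X ^ Fintype.card E - X : E[X]) = 0 := by
    rw [map_sub, map_pow, aeval_X, ← hc, hz, sub_self]
  rw [h1, map_prod] at h4
  obtain ⟨e, -, he⟩ := Finset.prod_eq_zero_iff.1 h4
  rw [map_sub, aeval_X, aeval_C, sub_eq_zero] at he
  exact ⟨e, he.symm⟩

section

variable {κ F : Type} [Field κ] [Finite κ] [Field F] [Algebra κ F]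

/-- A finite field has at most one extension of each degree in a given field. -/
theorem sub_eq (M M' : IntermediateField κ F) [FiniteDimensional κ M] [FiniteDimensional κ M']
    (h : Module.finrank κ M = Module.finrank κ M') : M ≤ M' := by
  have h1 : Finite M := Module.finite_of_finite κ
  have h2 : Finite M' := Module.finite_of_finite κ
  have hc : Nat.card M = Nat.card M' := by
    rw [Module.natCard_eq_pow_finrank (K := κ) (V := M), Module.natCard_eq_pow_finrank (K := κ) (V := M'), h]
  intro z hz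
  have hz1 : (⟨z, hz⟩ : M) ^ Nat.card M = ⟨z, hz⟩ := by
    have := Fintype.ofFinite M
    rw [Nat.card_eq_fintype_card]
    exact FiniteField.pow_card _
  have hz2 : z ^ Nat.card M' = z := by
    rw [← hc]
    exact congrArg Subtype.val hz1
  obtain ⟨e, he⟩ := mem_of_pow (E := M') z hz2
  rw [← he]
  exact e.2

/-- Existence of a subextension of prime degree. -/
theorem exists_sub (y : F) (hy : IsAlgebraic κ y) (hy' : y ∉ Set.range (algebraMap κ F)) :
    ∃ M : IntermediateField κ F, M ≤ κ⟮y⟯ ∧ FiniteDimensional κ M ∧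
      (Module.finrank κ M).Prime := by
  have hfd : FiniteDimensional κ κ⟮y⟯ := adjoin.finiteDimensional hy.isIntegral
  have hfin : Finite κ⟮y⟯ := Module.finite_of_finite κ
  have hd : Module.finrank κ κ⟮y⟯ ≠ 1 := by
    intro h
    rw [IntermediateField.finrank_eq_one_iff] at h
    apply hy'
    rw [← IntermediateField.mem_bot, ← h]
    exact mem_adjoin_simple_self κ y
  obtain ⟨ℓ, hℓ, hdvd⟩ := Nat.exists_prime_and_dvd hd
  have hgal : IsGalois κ κ⟮y⟯ := inferInstance
  have hcard := IsGalois.card_aut_eq_finrank κ κ⟮y⟯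
  obtain ⟨g, hg⟩ := IsCyclic.exists_generator (α := Gal(κ⟮y⟯/κ))
  have hgo : orderOf g = Module.finrank κ κ⟮y⟯ := by
    rw [← hcard]
    exact orderOf_eq_card_of_forall_mem_zpowers hg
  let H : Subgroup Gal(κ⟮y⟯/κ) := Subgroup.zpowers (g ^ ℓ)
  have hH : Nat.card H = Module.finrank κ κ⟮y⟯ / ℓ := by
    rw [Nat.card_zpowers, orderOf_pow_of_dvd hℓ.ne_zero (by rw [hgo]; exact hdvd), hgo]
  have hf1 : Module.finrank (fixedField H) κ⟮y⟯ = Module.finrank κ κ⟮y⟯ / ℓ := by
    rw [← hH]
    exact finrank_fixedField_eq_card H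
  have hf2 : Module.finrank κ (fixedField H) = ℓ := by
    have h1 := Module.finrank_mul_finrank κ (fixedField H) κ⟮y⟯
    rw [hf1] at h1
    have h2 : 0 < Module.finrank κ κ⟮y⟯ / ℓ :=
      Nat.div_pos (Nat.le_of_dvd Module.finrank_pos hdvd) hℓ.pos
    have h3 : ℓ * (Module.finrank κ κ⟮y⟯ / ℓ) = Module.finrank κ κ⟮y⟯ :=
      Nat.mul_div_cancel' hdvd
    exact Nat.eq_of_mul_eq_mul_right h2 (h1.trans h3.symm)
  refine ⟨IntermediateField.lift (fixedField H), lift_le _, ?_, ?_⟩
  · exact LinearEquiv.finiteDimensional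
      (IntermediateField.liftAlgEquiv (fixedField H)).toLinearEquiv
  · rw [← (IntermediateField.liftAlgEquiv (fixedField H)).toLinearEquiv.finrank_eq, hf2]
    exact hℓ

end

end Pool.Agent.Y140.IG
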