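import Mathlib
import Pool.Agent.Y140.IG.PF

/-!
# From `G^n` over `κ(X)` to `G` regular over `κ`, part 2
-/

set_option autoImplicit false

namespace Pool.Agent.Y140.IG

open Polynomial IntermediateField

section

variable {κ F : Type} [Field κ] [Finite κ] [Field F] [Algebra (RatFunc κ) F] [Algebra κ F]
  [IsScalarTower κ (RatFunc κ) F] [FiniteDimensional (RatFunc κ) F] [IsGalois (RatFunc κ) F]

/-- Constants fixed by the Galois group are in `κ`. -/
theorem fixed_const (z : F) (hz : IsAlgebraic κ z) (h : ∀ σ : F ≃ₐ[RatFunc κ] F, σ z = z) :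
    z ∈ Set.range (algebraMap κ F) := by
  obtain ⟨w, hw⟩ := (IsGalois.mem_range_algebraMap_iff_fixed (F := RatFunc κ) (E := F) _).2 h
  have h1 : IsAlgebraic κ w := by
    rw [← hw, isAlgebraic_algebraMap_iff (algebraMap (RatFunc κ) F).injective] at hz
    exact hz
  obtain ⟨c, hc⟩ := const_rat w h1
  exact ⟨c, by rw [IsScalarTower.algebraMap_apply κ (RatFunc κ) F, hc, hw]⟩

/-- Restriction to a finite field of constants is surjective. -/
theorem rho_surj (M : IntermediateField κ F) [FiniteDimensional κ M] (hn : IsGalois κ M) :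
    Function.Surjective ((AlgEquiv.restrictNormalHom (F := κ) (K₁ := F) M).comp
      (AlgEquiv.restrictScalarsHom κ : (F ≃ₐ[RatFunc κ] F) →* (F ≃ₐ[κ] F))) := by
  rw [← MonoidHom.range_eq_top]
  set ρ := ((AlgEquiv.restrictNormalHom (F := κ) (K₁ := F) M).comp
      (AlgEquiv.restrictScalarsHom κ : (F ≃ₐ[RatFunc κ] F) →* (F ≃ₐ[κ] F))) with hρ
  have h1 : fixedField ρ.range = ⊥ := by
    rw [eq_bot_iff]
    intro z hz
    have hz1 : ∀ σ : F ≃ₐ[RatFunc κ] F, σ (z : F) = z := by
      intro σ
      have h2 : ρ σ z = z := hz ⟨ρ σ, σ, rfl⟩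
      have h3 : ((ρ σ z : M) : F) = (σ.restrictScalars κ) (z : F) :=
        AlgEquiv.restrictNormal_commutes (σ.restrictScalars κ) M z
      rw [h2] at h3
      exact h3.symm
    have hz2 : IsAlgebraic κ (z : F) := (Algebra.IsAlgebraic.isAlgebraic (R := κ) z).algebraMap
    obtain ⟨c, hc⟩ := fixed_const (z : F) hz2 hz1
    rw [IntermediateField.mem_bot]
    exact ⟨c, Subtype.ext hc⟩
  rw [← fixingSubgroup_fixedField ρ.range, h1, fixingSubgroup_bot]

/-- Elements of the subfield generated by a fixed element are fixed. -/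
theorem fix_adjoin (y z : F) (σ : F ≃ₐ[RatFunc κ] F) (hy : σ y = y) (hz : z ∈ κ⟮y⟯) :
    σ z = z := by
  have h1 : κ⟮y⟯ ≤ fixedField (Subgroup.zpowers (σ.restrictScalars κ)) := by
    rw [adjoin_simple_le_iff]
    rintro ⟨τ, hτ⟩
    obtain ⟨k, rfl⟩ := Subgroup.mem_zpowers_iff.1 hτ
    change ((σ.restrictScalars κ) ^ k) y = y
    have h2 : σ.restrictScalars κ ∈ MulAction.stabilizer (F ≃ₐ[κ] F) y := hy
    exact (MulAction.stabilizer (F ≃ₐ[κ] F) y).zpow_mem h2 k
  exact h1 hz ⟨σ.restrictScalars κ, Subgroup.mem_zpowers _⟩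

/-- If the group `G^n` occurs over `κ(X)` and `n` exceeds the number of primes dividing the order
of the abelianization of `G`, then one of the `n` extensions with group `G` is regular. -/
theorem core (G : Type) [Group G] [Finite G] (n : ℕ)
    (hn : (Nat.card (Abelianization G)).primeFactors.card < n)
    (γ : (F ≃ₐ[RatFunc κ] F) ≃* (Fin n → G)) :
    ∃ i : Fin n, ∀ y : F, (∀ σ : F ≃ₐ[RatFunc κ] F, γ σ i = 1 → σ y = y) → IsAlgebraic κ y →
      y ∈ Set.range (algebraMap κ F) := by
  classical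
  by_contra! H
  choose y hfix halg hy using H
  choose M hle hfd hpr using fun i => exists_sub (y i) (halg i) (hy i)
  have hMfix : ∀ i (z : F), z ∈ M i → ∀ σ : F ≃ₐ[RatFunc κ] F, γ σ i = 1 → σ z = z :=
    fun i z hz σ hσ => fix_adjoin (y i) z σ (hfix i σ hσ) (hle i hz)
  have hdvd : ∀ i, Module.finrank κ (M i) ∣ Nat.card (Abelianization G) := by
    intro i
    have := hfd i
    have hfin : Finite (M i) := Module.finite_of_finite κ
    have hgal : IsGalois κ (M i) := inferInstance
    have hsurj := rho_surj (M i) hgal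
    set ρ := ((AlgEquiv.restrictNormalHom (F := κ) (K₁ := F) (M i)).comp
      (AlgEquiv.restrictScalarsHom κ : (F ≃ₐ[RatFunc κ] F) →* (F ≃ₐ[κ] F))) with hρ
    have hker : ∀ σ, γ σ i = 1 → ρ σ = 1 := by
      intro σ hσ
      apply AlgEquiv.ext
      intro z
      apply Subtype.ext
      have h3 : ((ρ σ z : M i) : F) = (σ.restrictScalars κ) (z : F) :=
        AlgEquiv.restrictNormal_commutes (σ.restrictScalars κ) (M i) z
      rw [h3]
      exact hMfix i z z.2 σ hσ
    let f : G →* (M i ≃ₐ[κ] M i) := (ρ.comp γ.symm.toMonoidHom).comp (MonoidHom.mulSingle (fun _ : Fin n => G) i)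
    have hf : Function.Surjective f := by
      intro τ
      obtain ⟨σ, rfl⟩ := hsurj τ
      refine ⟨γ σ i, ?_⟩
      change ρ (γ.symm (Pi.mulSingle i (γ σ i))) = ρ σ
      have h1 : γ ((γ.symm (Pi.mulSingle i (γ σ i)))⁻¹ * σ) i = 1 := by
        rw [map_mul, map_inv, MulEquiv.apply_symm_apply]
        simp
      have h2 := hker _ h1
      rw [map_mul, map_inv, inv_mul_eq_one] at h2
      exact h2
    let cg : CommGroup (M i ≃ₐ[κ] M i) := IsCyclic.commGroup
    let g : Abelianization G →* (M i ≃ₐ[κ] M i) := Abelianization.lift f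
    have hg : Function.Surjective g := by
      intro τ
      obtain ⟨x, rfl⟩ := hf τ
      exact ⟨Abelianization.of x, Abelianization.lift_apply_of f x⟩
    have h5 := Subgroup.card_dvd_of_surjective g hg
    rw [← IsGalois.card_aut_eq_finrank]
    exact h5
  have hcard0 : Nat.card (Abelianization G) ≠ 0 := Nat.card_pos.ne'
  have hmaps : ∀ i ∈ (Finset.univ : Finset (Fin n)),
      Module.finrank κ (M i) ∈ (Nat.card (Abelianization G)).primeFactors := fun i _ =>
    Nat.mem_primeFactors.2 ⟨hpr i, hdvd i, hcard0⟩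
  obtain ⟨i, -, j, -, hij, he⟩ := Finset.exists_ne_map_eq_of_card_lt_of_maps_to
    (by rw [Finset.card_univ, Fintype.card_fin]; exact hn) hmaps
  have := hfd i
  have := hfd j
  have hMij : M i ≤ M j := sub_eq (M i) (M j) he
  have hbot : M i = ⊥ := by
    rw [eq_bot_iff]
    intro z hz
    rw [IntermediateField.mem_bot]
    refine fixed_const z ?_ fun σ => ?_
    · exact (Algebra.IsAlgebraic.isAlgebraic (R := κ) (⟨z, hz⟩ : M i)).algebraMap
    · let x := γ σ
      let x1 : Fin n → G := Pi.mulSingle j (x j)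
      have h1 : γ (γ.symm x1) i = 1 := by
        rw [MulEquiv.apply_symm_apply]
        exact Pi.mulSingle_eq_of_ne hij _
      have h2 : γ ((γ.symm x1)⁻¹ * σ) j = 1 := by
        rw [map_mul, map_inv, MulEquiv.apply_symm_apply]
        simp [x1, x]
      have h3 := hMfix i z hz _ h1
      have h4 := hMfix j z (hMij hz) _ h2
      have h5 : σ = (γ.symm x1) * ((γ.symm x1)⁻¹ * σ) := by group
      rw [h5, AlgEquiv.mul_apply, h4, h3]
  have := hpr i
  rw [hbot, IntermediateField.finrank_bot] at this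
  exact Nat.not_prime_one this

end

end Pool.Agent.Y140.IG
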