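import Mathlib
import Pool.Agent.Y140.IG.PG
import Pool.Agent.Y140.IG.HR
import Pool.Agent.TH377.IG.Spec
import Pool.Agent.TH444.TW.ClsDef

/-!
# The inverse Galois problem over `κ(X)` and the regular inverse Galois problem
-/

set_option autoImplicit false

namespace Pool.Agent.Y140.IG

open Polynomial IntermediateField
open Pool.Agent.H391R2.T4 (HilbField RegSol)
open Pool.Agent.TH444.TW (RegularOver)

/-- `G` is the group of a Galois extension of `F`. -/
def Occurs (F G : Type) [Field F] [Group G] : Prop :=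
  ∃ (L : Type) (_ : Field L) (_ : Algebra F L),
    FiniteDimensional F L ∧ IsGalois F L ∧ Nonempty ((L ≃ₐ[F] L) ≃* G)

theorem regularOver_iff (K A : Type) [Field K] [Group A] :
    RegularOver K A ↔ RegSol K K A 1 := by
  constructor
  · rintro ⟨F, i1, i2, i3, i4, i5, i6, ⟨γ⟩, hreg⟩
    refine ⟨F, i1, i2, i3, i3, i4, inferInstance, i5, i6, γ, ?_, hreg⟩
    intro σ x
    change σ (algebraMap K F x) = algebraMap K F x
    rw [IsScalarTower.algebraMap_apply K (RatFunc K) F, AlgEquiv.commutes]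
  · rintro ⟨F, i1, i2, i3, i4, i5, i6, i7, i8, γ, h1, hreg⟩
    have h34 : i4 = i3 := Algebra.algebra_ext i4 i3 (fun x =>
      @IsScalarTower.algebraMap_apply K K F _ _ _ _ i3 i4 i6 x)
    subst h34
    exact ⟨F, i1, i2, i4, i5, i7, i8, ⟨γ⟩, hreg⟩

/-- `G` is regular if `G^n` occurs over `κ(X)` for a large `n`. -/
theorem regular_of_power (κ G : Type) [Field κ] [Finite κ] [Group G] [Finite G] (n : ℕ)
    (hn : (Nat.card (Abelianization G)).primeFactors.card < n)
    (h : Occurs (RatFunc κ) (Fin n → G)) : RegularOver κ G := by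
  obtain ⟨F, i1, i2, i3, i4, ⟨γ⟩⟩ := h
  let _ : Algebra κ F := ((algebraMap (RatFunc κ) F).comp (algebraMap κ (RatFunc κ))).toAlgebra
  have : IsScalarTower κ (RatFunc κ) F := IsScalarTower.of_algebraMap_eq fun x => rfl
  obtain ⟨i, hi⟩ := core G n hn γ
  let ev : (F ≃ₐ[RatFunc κ] F) →* G := (Pi.evalMonoidHom (fun _ : Fin n => G) i).comp
    γ.toMonoidHom
  have hev : Function.Surjective ev := by
    intro g
    obtain ⟨σ, hσ⟩ := γ.surjective (fun _ => g)
    refine ⟨σ, ?_⟩
    change γ σ i = g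
    rw [hσ]
  have hevs : ∀ σ, ev σ = γ σ i := fun _ => rfl
  let E : IntermediateField (RatFunc κ) F := fixedField ev.ker
  have hgal : IsGalois (RatFunc κ) E := IsGalois.of_fixedField_normal_subgroup ev.ker
  have hker : (AlgEquiv.restrictNormalHom (F := RatFunc κ) (K₁ := F) E).ker = ev.ker := by
    rw [restrictNormalHom_ker]
    exact fixingSubgroup_fixedField _
  obtain ⟨e, he⟩ := Pool.Agent.H391R2.T4.exists_equiv_of_ker
    (AlgEquiv.restrictNormalHom (F := RatFunc κ) (K₁ := F) E) ev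
    (AlgEquiv.restrictNormalHom_surjective F) hev hker
  let _ : Algebra κ E := ((algebraMap (RatFunc κ) E).comp (algebraMap κ (RatFunc κ))).toAlgebra
  have hT : IsScalarTower κ (RatFunc κ) E := IsScalarTower.of_algebraMap_eq fun x => rfl
  refine ⟨E, inferInstance, inferInstance, inferInstance, hT, inferInstance, hgal, ⟨e⟩, ?_⟩
  intro y hy
  have hy1 : IsAlgebraic κ (y : F) := by
    obtain ⟨p, hp0, hp⟩ := hy
    refine ⟨p, hp0, ?_⟩
    have h1 := congrArg (algebraMap E F) hp
    rw [map_zero] at h1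
    rw [← h1]
    have h2 : (algebraMap E F).comp (algebraMap κ E) = algebraMap κ F := rfl
    change _ = algebraMap E F (eval₂ (algebraMap κ E) y p)
    rw [hom_eval₂, h2]
    rfl
  obtain ⟨c, hc⟩ := hi y (fun σ hσ => y.2 ⟨σ, hσ⟩) hy1
  exact ⟨c, Subtype.ext hc⟩

/-- Proper solutions over `κ(X)` or over a Hilbertian field of regular realisations. -/
theorem occurs_of_regular {K G : Type} [Field K] [Group G] [Finite G] (hK : HilbField K)
    (h : RegularOver K G) : Occurs K G := by
  obtain ⟨F, i1, i2, i3, i4, h6, h7, γ, -⟩ :=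
    Pool.Agent.TH377.IG.spec_hilb hK K G 1 (by
      obtain ⟨F, i1, i2, i3, i4, i5, i6, i7, i8, γ, h1, -⟩ := (regularOver_iff K G).1 h
      exact ⟨F, i1, i2, i3, i4, i5, i6, i7, i8, γ, h1⟩)
  exact ⟨F, i1, i2, h6, h7, ⟨γ⟩⟩

/-- Base change and powers. -/
theorem regular_power {k K G : Type} [Field k] [Field K] [Algebra k K] [Group G] [Finite G]
    (h : RegularOver k G) (n : ℕ) : RegularOver K (Fin n → G) := by
  classical
  let _ : MulAction (K ≃ₐ[K] K) (Fin n) :=
    { smul := fun _ x => x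
      one_smul := fun _ => rfl
      mul_smul := fun _ _ _ => rfl }
  have h1 := Pool.Agent.TH15.IGP.pw_reg_all k K K G (Fin n) ((regularOver_iff k G).1 h)
  have hK : ∀ σ τ : K ≃ₐ[K] K, σ = τ := fun σ τ => AlgEquiv.ext fun x => by
    have h1 : ∀ ρ : K ≃ₐ[K] K, ρ x = x := fun ρ => ρ.commutes x
    rw [h1, h1]
  let e : Pool.Agent.TH15.IGP.PW G (Fin n) (K ≃ₐ[K] K) ≃* (Fin n → G) :=
    { toFun := fun x => x.left
      invFun := fun a => ⟨a, 1⟩
      left_inv := fun x => by
        apply SemidirectProduct.ext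
        · rfl
        · exact hK _ _
      right_inv := fun a => rfl
      map_mul' := fun x y => rfl }
  rw [regularOver_iff]
  obtain ⟨F, i1, i2, i3, i4, i5, i6, i7, i8, γ, h1, h2⟩ := h1
  refine ⟨F, i1, i2, i3, i4, i5, i6, i7, i8, γ.trans e, fun σ x => ?_, h2⟩
  rw [h1]
  congr 1
  exact DFunLike.congr_fun (hK _ _) x

end Pool.Agent.Y140.IG
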