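import Mathlib
import Pool.Agent.Y140.IG.PH

/-!
# The inverse Galois problem over `κ(X)`: equivalent forms
-/

set_option autoImplicit false

namespace Pool.Agent.Y140.IG

open Polynomial IntermediateField
open Pool.Agent.H391R2.T4 (HilbField RegSol)
open Pool.Agent.TH444.TW (RegularOver)

/-- Regular solutions of all wreath product embedding problems. -/
def WreathRegular (K G : Type) [Field K] [Group G] : Prop :=
  ∀ (L : Type) [Field L] [Algebra K L] [FiniteDimensional K L] [IsGalois K L]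
    (X : Type) [Finite X] [MulAction (L ≃ₐ[K] L) X],
    ∃ (F : Type) (_ : Field F) (_ : Algebra (RatFunc K) F) (_ : Algebra L F)
      (_ : Algebra K F) (_ : IsScalarTower K (RatFunc K) F) (_ : IsScalarTower K L F)
      (_ : FiniteDimensional (RatFunc K) F) (_ : IsGalois (RatFunc K) F)
      (γ : (F ≃ₐ[RatFunc K] F) ≃* ((X → G) ⋊[mulAutArrow] (L ≃ₐ[K] L))),
      (∀ (σ : F ≃ₐ[RatFunc K] F) (x : L),
        σ (algebraMap L F x) = algebraMap L F ((γ σ).right x)) ∧
      ∀ y : F, IsAlgebraic L y → y ∈ Set.range (algebraMap L F)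

/-- Proper solutions of all wreath product embedding problems. -/
def WreathProper (K G : Type) [Field K] [Group G] : Prop :=
  ∀ (L : Type) [Field L] [Algebra K L] [FiniteDimensional K L] [IsGalois K L]
    (X : Type) [Finite X] [MulAction (L ≃ₐ[K] L) X],
    ∃ (F : Type) (_ : Field F) (_ : Algebra K F) (_ : Algebra L F) (_ : IsScalarTower K L F),
      FiniteDimensional K F ∧ IsGalois K F ∧
      ∃ γ : (F ≃ₐ[K] F) ≃* ((X → G) ⋊[mulAutArrow] (L ≃ₐ[K] L)),
        ∀ σ : F ≃ₐ[K] F, (γ σ).right = σ.restrictNormal L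

theorem wreath_regular {k K G : Type} [Field k] [Field K] [Algebra k K] [Group G] [Finite G]
    (h : RegularOver k G) : WreathRegular K G := fun L _ _ _ _ X _ _ =>
  Pool.Agent.TH15.IGP.pw_reg_all k K L G X ((regularOver_iff k G).1 h)

theorem wreath_proper {K G : Type} [Field K] [Group G] [Finite G] (hK : HilbField K)
    (h : WreathRegular K G) : WreathProper K G := by
  intro L _ _ _ _ X _ _
  have hfin : Finite ((X → G) ⋊[mulAutArrow] (L ≃ₐ[K] L)) :=
    Finite.of_equiv _ SemidirectProduct.equivProd.symm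
  obtain ⟨F, i1, i2, i3, i4, i5, i6, i7, i8, γ, h1, -⟩ := h L X
  exact Pool.Agent.TH377.IG.spec_hilb hK L ((X → G) ⋊[mulAutArrow] (L ≃ₐ[K] L))
    SemidirectProduct.rightHom ⟨F, i1, i2, i3, i4, i5, i6, i7, i8, γ, h1⟩

/-- The trivial action. -/
def trivAct (K : Type) [Field K] (X : Type) : MulAction (K ≃ₐ[K] K) X where
  smul := fun _ x => x
  one_smul := fun _ => rfl
  mul_smul := fun _ _ _ => rfl

theorem aut_self {K : Type} [Field K] (σ τ : K ≃ₐ[K] K) : σ = τ := AlgEquiv.ext fun x => by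
  have h1 : ∀ ρ : K ≃ₐ[K] K, ρ x = x := fun ρ => ρ.commutes x
  rw [h1, h1]

/-- The wreath product with the trivial group. -/
def trivEquiv (K : Type) [Field K] (X G : Type) [Group G] [MulAction (K ≃ₐ[K] K) X] :
    ((X → G) ⋊[mulAutArrow] (K ≃ₐ[K] K)) ≃* (X → G) where
  toFun := fun x => x.left
  invFun := fun a => ⟨a, 1⟩
  left_inv := fun x => by
    apply SemidirectProduct.ext
    · rfl
    · exact aut_self _ _
  right_inv := fun a => rfl
  map_mul' := fun x y => by
    rw [SemidirectProduct.mul_left]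
    congr 1
    rw [aut_self x.right 1, map_one]
    rfl

theorem occurs_of_wreath {K G : Type} [Field K] [Group G] (h : WreathProper K G) (n : ℕ) :
    Occurs K (Fin n → G) := by
  let _ := trivAct K (Fin n)
  obtain ⟨F, i1, i2, i3, i4, h5, h6, γ, -⟩ := h K (Fin n)
  exact ⟨F, i1, i2, h5, h6, ⟨γ.trans (trivEquiv K (Fin n) G)⟩⟩

theorem regular_of_wreath {K G : Type} [Field K] [Group G] (h : WreathRegular K G) (n : ℕ) :
    RegularOver K (Fin n → G) := by
  let _ := trivAct K (Fin n)
  obtain ⟨F, i1, i2, i3, i4, i5, i6, i7, i8, γ, -, hreg⟩ := h K (Fin n)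
  have h34 : i4 = i3 := Algebra.algebra_ext i4 i3 (fun x =>
    @IsScalarTower.algebraMap_apply K K F _ _ _ _ i3 i4 i6 x)
  subst h34
  exact ⟨F, i1, i2, i4, i5, i7, i8, ⟨γ.trans (trivEquiv K (Fin n) G)⟩, hreg⟩

theorem Occurs.congr {K G G' : Type} [Field K] [Group G] [Group G'] (e : G ≃* G')
    (h : Occurs K G) : Occurs K G' := by
  obtain ⟨F, i1, i2, h5, h6, ⟨γ⟩⟩ := h
  exact ⟨F, i1, i2, h5, h6, ⟨γ.trans e⟩⟩

theorem regular_congr {K G G' : Type} [Field K] [Group G] [Group G'] (e : G ≃* G')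
    (h : RegularOver K G) : RegularOver K G' := by
  obtain ⟨F, i1, i2, i3, i4, i5, i6, ⟨γ⟩, h7⟩ := h
  exact ⟨F, i1, i2, i3, i4, i5, i6, ⟨γ.trans e⟩, h7⟩

theorem occurs_of_regular' (K : Type) [Field K] {G : Type} [Group G] (h : RegularOver K G) :
    Occurs (RatFunc K) G := by
  obtain ⟨F, i1, i2, i3, i4, i5, i6, ⟨γ⟩, -⟩ := h
  exact ⟨F, i1, i2, i5, i6, ⟨γ⟩⟩

/-- One group. -/
theorem one_group (κ : Type) [Field κ] [Finite κ] (G : Type) [Group G] [Finite G] :
    List.TFAE
      [RegularOver κ G,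
       Occurs (RatFunc κ) (Fin ((Nat.card (Abelianization G)).primeFactors.card + 1) → G),
       ∀ (K : Type) [Field K] [Algebra κ K], WreathRegular K G,
       ∀ (K : Type) [Field K] [Algebra κ K], HilbField K → WreathProper K G] := by
  tfae_have 1 → 3 := fun h K _ _ => wreath_regular h
  tfae_have 3 → 4 := fun h K _ _ hK => wreath_proper hK (h K)
  tfae_have 4 → 2 := fun h => occurs_of_wreath (h (RatFunc κ) (hilb_ratFunc κ)) _
  tfae_have 2 → 1 := fun h => regular_of_power κ G _ (Nat.lt_succ_self _) h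
  tfae_finish

/-- All groups. -/
theorem all_groups (p : ℕ) [Fact p.Prime] :
    List.TFAE
      [∀ (G : Type) [Group G] [Finite G], Occurs (RatFunc (ZMod p)) G,
       ∀ (K : Type) [Field K] [CharP K p] (G : Type) [Group G] [Finite G], RegularOver K G,
       ∀ (K : Type) [Field K] [CharP K p], HilbField K → ∀ (G : Type) [Group G] [Finite G],
         Occurs K G] := by
  have key : ∀ (K : Type) [Field K] [CharP K p], (∀ (G : Type) [Group G] [Finite G],
      Occurs (RatFunc (ZMod p)) G) → ∀ (G : Type) [Group G] [Finite G], WreathRegular K G := by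
    intro K _ _ h G _ _
    let _ : Algebra (ZMod p) K := ZMod.algebra K p
    have h1 : RegularOver (ZMod p) G := regular_of_power (ZMod p) G _ (Nat.lt_succ_self _) (h _)
    exact wreath_regular h1
  have e : ∀ (G : Type) [Group G], (Fin 1 → G) ≃* G := fun G _ => MulEquiv.funUnique (Fin 1) G
  tfae_have 1 → 2 := fun h K _ _ G _ _ => regular_congr (e G) (regular_of_wreath (key K h G) 1)
  tfae_have 1 → 3 := fun h K _ _ hK G _ _ =>
    (occurs_of_wreath (wreath_proper hK (key K h G)) 1).congr (e G)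
  tfae_have 3 → 1 := fun h G _ _ => by
    have : CharP (RatFunc (ZMod p)) p :=
      charP_of_injective_algebraMap (algebraMap (ZMod p) (RatFunc (ZMod p))).injective p
    exact h (RatFunc (ZMod p)) (hilb_ratFunc (ZMod p)) G
  tfae_have 2 → 1 := fun h G _ _ => occurs_of_regular' (ZMod p) (h (ZMod p) G)
  tfae_finish

end Pool.Agent.Y140.IG
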